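import Mathlib

namespace Pool.Agent.Results.MP_cf0a62_gt.Yes

open MeasureTheory Set

/-- Euclidean `ℝ^{n+1}`, containing the unit sphere `S^n`. -/
abbrev E (n : ℕ) : Type := EuclideanSpace ℝ (Fin (n + 1))

/-- A finite oriented `(n-1)`-dimensional pseudomanifold without boundary on the vertex set `V`.
`o t = ± 1` when the `n`-tuple `t` lists the vertices of a facet (the sign compares the ordering
with the orientation), and `o t = 0` otherwise; simplices are the faces of facets. -/
structure OPM (n : ℕ) (V : Type) [DecidableEq V] where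
  o : (Fin n → V) → ℤ
  val : ∀ t, o t = 0 ∨ o t = 1 ∨ o t = -1
  inj : ∀ t, o t ≠ 0 → Function.Injective t
  alt : ∀ t (σ : Equiv.Perm (Fin n)), o (t ∘ σ) = Equiv.Perm.sign σ * o t
  /-- every `(n-2)`-face of a facet lies in exactly one other facet -/
  ridge : ∀ t, o t ≠ 0 → ∀ i, ∃! v, v ≠ t i ∧ o (Function.update t i v) ≠ 0
  /-- adjacent facets induce opposite orientations on their common face -/
  coh : ∀ t i v, o t ≠ 0 → v ≠ t i → o (Function.update t i v) ≠ 0 →
    o (Function.update t i v) = - o t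
  /-- strong connectedness -/
  conn : ∀ t t', o t ≠ 0 → o t' ≠ 0 → Relation.ReflTransGen
    (fun a b => o a ≠ 0 ∧ o b ≠ 0 ∧
      ((∃ σ : Equiv.Perm (Fin n), b = a ∘ σ) ∨ ∃ i v, b = Function.update a i v)) t t'
  cover : ∀ v, ∃ t i, o t ≠ 0 ∧ t i = v

section defs
variable {n : ℕ} {V : Type} [DecidableEq V]

/-- A polyhedron of type `K` in `S^n`, given by its vertices: unit vectors, linearly independent
on each facet. -/
def IsPoly (K : OPM n V) (P : V → E n) : Prop :=
  (∀ v, ‖P v‖ = 1) ∧ ∀ t, K.o t ≠ 0 → LinearIndependent ℝ (P ∘ t)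

/-- The configuration space of `P₀`: polyhedra of type `K` with the same spherical edge lengths. -/
def Conf (K : OPM n V) (P₀ : V → E n) : Set (V → E n) :=
  {P | IsPoly K P ∧ ∀ t, K.o t ≠ 0 → ∀ i j,
    InnerProductGeometry.angle (P (t i)) (P (t j)) = InnerProductGeometry.angle (P₀ (t i)) (P₀ (t j))}

/-- The positive cone on the vertex vectors of the tuple `t`. -/
def cone (P : V → E n) (t : Fin n → V) : Set (E n) :=
  {x | ∃ a : Fin n → ℝ, (∀ i, 0 ≤ a i) ∧ x = ∑ i, a i • P (t i)}

/-- The cone over the image `P(K)`. -/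
def image (K : OPM n V) (P : V → E n) : Set (E n) := {x | ∃ t, K.o t ≠ 0 ∧ x ∈ cone P t}

/-- The determinant with rows `u, P (t 0), …, P (t (n-1))`. -/
noncomputable def dt (P : V → E n) (t : Fin n → V) (u : E n) : ℝ :=
  Matrix.det (Matrix.of fun i j => (Fin.cons u (P ∘ t) : Fin (n + 1) → E n) i j)

open Classical in
/-- The signed crossing of the ordered facet `t` by the shortest arc from `y` to `x` (the radial
projection of the segment). -/
noncomputable def crossing (K : OPM n V) (P : V → E n) (y x : E n) (t : Fin n → V) : ℝ :=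
  if ∃ l ∈ Icc (0 : ℝ) 1, (1 - l) • y + l • x ∈ cone P t
  then (K.o t : ℝ) * SignType.sign (dt P t (x - y)) else 0

/-- The algebraic intersection number with `P(K)` of the shortest arc from `y` to `x`; each facet
has `n!` orderings. -/
noncomputable def ind [Fintype V] (K : OPM n V) (P : V → E n) (y x : E n) : ℝ :=
  (∑ t, crossing K P y x t) / n.factorial

end defs

/-- The surface measure of `S^n`. -/
noncomputable def sm (n : ℕ) : Measure (Metric.sphere (0 : E n) 1) :=
  (volume : Measure (E n)).toSphere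

/-- `vol(S^n)` -/
noncomputable def volS (n : ℕ) : ℝ := (sm n).real univ

/-- `V_y(P)` -/
noncomputable def Vol {n : ℕ} {V : Type} [DecidableEq V] [Fintype V] (K : OPM n V) (P : V → E n)
    (y : E n) : ℝ := ∫ x, ind K P y x ∂(sm n)

section general
variable {n : ℕ} {V : Type} [DecidableEq V]

omit [DecidableEq V] in
theorem cone_perm (P : V → E n) (t : Fin n → V) (σ : Equiv.Perm (Fin n)) :
    cone P (t ∘ σ) = cone P t := by
  ext x
  constructor
  · rintro ⟨a, ha, rfl⟩
    refine ⟨a ∘ σ.symm, fun i => ha _, ?_⟩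
    rw [← Equiv.sum_comp σ (fun i => (a ∘ σ.symm) i • P (t i))]
    simp
  · rintro ⟨a, ha, rfl⟩
    refine ⟨a ∘ σ, fun i => ha _, ?_⟩
    rw [← Equiv.sum_comp σ (fun i => a i • P (t i))]
    simp

omit [DecidableEq V] in
theorem dt_perm (P : V → E n) (t : Fin n → V) (σ : Equiv.Perm (Fin n)) (u : E n) :
    dt P (t ∘ σ) u = (Equiv.Perm.sign σ : ℤ) * dt P t u := by
  unfold dt
  have h := Matrix.det_permute (Equiv.Perm.decomposeFin.symm (0, σ))
    (Matrix.of fun i j => (Fin.cons u (P ∘ t) : Fin (n + 1) → E n) i j)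
  rw [Equiv.Perm.decomposeFin.symm_sign] at h
  simp only [if_true, one_mul] at h
  rw [← h]
  congr 1
  ext i j
  refine Fin.cases ?_ (fun i => ?_) i <;> simp

theorem crossing_perm (K : OPM n V) (P : V → E n) (y x : E n) (t : Fin n → V)
    (σ : Equiv.Perm (Fin n)) : crossing K P y x (t ∘ σ) = crossing K P y x t := by
  unfold crossing
  rw [cone_perm, dt_perm, K.alt]
  split_ifs
  · rcases Int.units_eq_one_or (Equiv.Perm.sign σ) with h | h <;> simp [h, Left.sign_neg]
  · rfl

end general

/-- signs -/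
def ez (b : Bool) : ℤ := if b then 1 else -1

theorem ez_ne (b : Bool) : ez b ≠ 0 := by cases b <;> simp [ez]
theorem ez_not (b : Bool) : ez (!b) = - ez b := by cases b <;> simp [ez]
theorem ez_sq (b : Bool) : ez b * ez b = 1 := by cases b <;> simp [ez]

/-- orientation function of the boundary of the cross-polytope -/
def oc {n : ℕ} (t : Fin n → Fin n × Bool) : ℤ :=
  Matrix.det (Matrix.of fun i j => if (t i).1 = j then ez (t i).2 else 0)

/-- standard orderings of facets -/
def fc {n : ℕ} (s : Fin n → Bool) : Fin n → Fin n × Bool := fun i => (i, s i)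

theorem oc_perm {n : ℕ} (t : Fin n → Fin n × Bool) (σ : Equiv.Perm (Fin n)) :
    oc (t ∘ σ) = Equiv.Perm.sign σ * oc t := by
  unfold oc
  have h := Matrix.det_permute σ (Matrix.of fun i j => if (t i).1 = j then ez (t i).2 else 0)
  rw [Int.cast_id] at h
  rw [← h]
  rfl

theorem oc_fc {n : ℕ} (s : Fin n → Bool) : oc (fc s) = ∏ i, ez (s i) := by
  unfold oc
  rw [← Matrix.det_diagonal]
  congr 1

theorem oc_fc_ne {n : ℕ} (s : Fin n → Bool) : oc (fc s) ≠ 0 := by
  rw [oc_fc]; exact Finset.prod_ne_zero_iff.mpr fun i _ => ez_ne _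

theorem oc_ne_iff {n : ℕ} (t : Fin n → Fin n × Bool) :
    oc t ≠ 0 ↔ Function.Injective fun i => (t i).1 := by
  constructor
  · intro h
    rw [Finite.injective_iff_surjective]
    intro j
    by_contra hj
    apply h
    apply Matrix.det_eq_zero_of_column_eq_zero j
    intro i
    have : (t i).1 ≠ j := fun e => hj ⟨i, e⟩
    simp [this]
  · intro h
    let σ : Equiv.Perm (Fin n) := Equiv.ofBijective _ (Finite.injective_iff_bijective.mp h)
    have : t = fc (fun j => (t (σ.symm j)).2) ∘ σ := by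
      funext i
      simp only [fc, Function.comp_apply, Equiv.symm_apply_apply]
      rfl
    rw [this, oc_perm]
    exact mul_ne_zero (Units.ne_zero _) (oc_fc_ne _)

theorem oc_form {n : ℕ} (t : Fin n → Fin n × Bool) (h : oc t ≠ 0) :
    ∃ (s : Fin n → Bool) (σ : Equiv.Perm (Fin n)), t = fc s ∘ σ := by
  rw [oc_ne_iff] at h
  let σ : Equiv.Perm (Fin n) := Equiv.ofBijective _ (Finite.injective_iff_bijective.mp h)
  refine ⟨fun j => (t (σ.symm j)).2, σ, ?_⟩
  funext i
  simp only [fc, Function.comp_apply, Equiv.symm_apply_apply]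
  rfl

theorem upd_fst {n : ℕ} (t : Fin n → Fin n × Bool) (h : oc t ≠ 0) (i : Fin n) (v : Fin n × Bool)
    (hv : v ≠ t i) (h' : oc (Function.update t i v) ≠ 0) : v = ((t i).1, !(t i).2) := by
  rw [oc_ne_iff] at h h'
  have h1 : v.1 = (t i).1 := by
    obtain ⟨k, hk⟩ := Finite.injective_iff_surjective.mp h v.1
    by_cases hki : k = i
    · rw [← hki]; exact hk.symm
    · exfalso
      apply hki
      apply h'
      simp only [Function.update_self, Function.update_of_ne hki]
      exact hk
  refine Prod.ext h1 ?_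
  by_contra h2
  apply hv
  refine Prod.ext h1 ?_
  revert h2
  cases v.2 <;> cases (t i).2 <;> simp

theorem oc_flip {n : ℕ} (t : Fin n → Fin n × Bool) (i : Fin n) :
    oc (Function.update t i ((t i).1, !(t i).2)) = - oc t := by
  unfold oc
  have h := Matrix.det_updateRow_smul
    (Matrix.of fun i j => if (t i).1 = j then ez (t i).2 else 0) i (-1)
    ((Matrix.of fun i j => if (t i).1 = j then ez (t i).2 else 0) i)
  rw [Matrix.updateRow_eq_self, neg_one_mul] at h
  rw [← h]
  congr 1
  ext k j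
  by_cases hk : k = i
  · subst hk
    simp only [Matrix.of_apply, Function.update_self, Matrix.updateRow_self, Pi.smul_apply,
      smul_eq_mul, ez_not]
    split_ifs <;> simp
  · simp [Function.update_of_ne hk, Matrix.updateRow_ne hk]

theorem conn_fc {n : ℕ} (s s' : Fin n → Bool) : Relation.ReflTransGen
    (fun a b : Fin n → Fin n × Bool => oc a ≠ 0 ∧ oc b ≠ 0 ∧
      ((∃ σ : Equiv.Perm (Fin n), b = a ∘ σ) ∨ ∃ i v, b = Function.update a i v))
    (fc s) (fc s') := by
  have key : ∀ A : Finset (Fin n), Relation.ReflTransGen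
      (fun a b : Fin n → Fin n × Bool => oc a ≠ 0 ∧ oc b ≠ 0 ∧
        ((∃ σ : Equiv.Perm (Fin n), b = a ∘ σ) ∨ ∃ i v, b = Function.update a i v))
      (fc s) (fc fun i => if i ∈ A then s' i else s i) := by
    intro A
    induction A using Finset.induction_on with
    | empty => simpa using Relation.ReflTransGen.refl
    | insert a A _ ih =>
      refine ih.tail ⟨oc_fc_ne _, oc_fc_ne _, Or.inr ⟨a, (a, s' a), ?_⟩⟩
      funext i
      by_cases hi : i = a
      · subst hi; simp [fc]
      · simp [fc, hi]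
  simpa using key Finset.univ

/-- the boundary of the cross-polytope -/
def cross (n : ℕ) : OPM n (Fin n × Bool) where
  o := oc
  val t := by
    by_cases h : oc t = 0
    · exact Or.inl h
    · right
      obtain ⟨s, σ, rfl⟩ := oc_form t h
      rw [← Int.isUnit_iff, oc_perm, oc_fc]
      refine (Units.isUnit _).mul (IsUnit.prod_univ_iff.mpr fun i => ?_)
      exact IsUnit.of_mul_eq_one _ (ez_sq _)
  inj t h := fun i j e => (oc_ne_iff t).mp h (by simp only [e])
  alt := oc_perm
  ridge t h i := by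
    refine ⟨((t i).1, !(t i).2), ⟨fun e => ?_, ?_⟩, fun v hv => upd_fst t h i v hv.1 hv.2⟩
    · have := congrArg Prod.snd e
      simp at this
    · rw [oc_flip]; exact neg_ne_zero.mpr h
  coh t i v h hv h' := by rw [upd_fst t h i v hv h', oc_flip]
  conn t t' h h' := by
    obtain ⟨s, σ, rfl⟩ := oc_form t h
    obtain ⟨s', σ', rfl⟩ := oc_form t' h'
    refine Relation.ReflTransGen.head ⟨h, oc_fc_ne s, Or.inl ⟨σ.symm, ?_⟩⟩
      ((conn_fc s s').tail ⟨oc_fc_ne _, h', Or.inl ⟨σ', rfl⟩⟩)
    funext i; simp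
  cover v := ⟨fc fun _ => v.2, v.1, oc_fc_ne _, rfl⟩

theorem ind_cross {n : ℕ} (P : Fin n × Bool → E n) (y x : E n) :
    ind (cross n) P y x = ∑ s, crossing (cross n) P y x (fc s) := by
  unfold ind
  have h : ∑ p : (Fin n → Bool) × Equiv.Perm (Fin n), crossing (cross n) P y x (fc p.1)
      = ∑ t, crossing (cross n) P y x t := by
    refine Fintype.sum_of_injective (fun p => fc p.1 ∘ p.2) ?_ _ _ ?_ ?_
    · rintro ⟨s, σ⟩ ⟨s', σ'⟩ e
      have e1 : σ = σ' := by
        ext i
        have := congrArg Prod.fst (congrFun e i)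
        simp only [fc, Function.comp_apply] at this
        rw [this]
      subst e1
      refine Prod.ext ?_ rfl
      funext i
      have := congrArg Prod.snd (congrFun e (σ.symm i))
      simpa [fc] using this
    · intro t ht
      have : (cross n).o t = 0 := by
        by_contra h
        obtain ⟨s, σ, rfl⟩ := oc_form t h
        exact ht ⟨(s, σ), rfl⟩
      unfold crossing
      rw [this]; simp
    · intro p
      exact (crossing_perm _ _ _ _ _ _).symm
  rw [← h, Fintype.sum_prod_type]
  simp only [Finset.sum_const, Finset.card_univ, Fintype.card_perm, Fintype.card_fin, nsmul_eq_mul]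
  rw [← Finset.mul_sum]
  have : (n.factorial : ℝ) ≠ 0 := by exact_mod_cast n.factorial_ne_zero
  field_simp

/-- real signs -/
noncomputable def er (b : Bool) : ℝ := (ez b : ℝ)

theorem er_sq (b : Bool) : er b * er b = 1 := by cases b <;> simp [er, ez]
theorem er_ne (b : Bool) : er b ≠ 0 := by cases b <;> simp [er, ez]

/-- vertex positions: `(cos θ, ± sin θ, 0, …)` and `± e_{j+2}` -/
noncomputable def pos {m : ℕ} (c s : ℝ) (v : Fin (m + 1) × Bool) : E (m + 1) :=
  WithLp.toLp 2 (Fin.cases (motive := fun _ => Fin (m + 2) → ℝ)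
    (Fin.cons c (Fin.cons (er v.2 * s) 0))
    (fun j => Fin.cons 0 (Fin.cons 0 (Pi.single j (er v.2)))) v.1)

section pos
variable {m : ℕ} (c s : ℝ) (b : Bool)

@[simp] theorem pos00 : pos (m := m) c s (0, b) 0 = c := rfl
@[simp] theorem pos01 : pos (m := m) c s (0, b) 1 = er b * s := rfl
@[simp] theorem pos02 (k : Fin m) : pos (m := m) c s (0, b) k.succ.succ = 0 := rfl
@[simp] theorem pos10 (j : Fin m) : pos (m := m) c s (j.succ, b) 0 = 0 := rfl
@[simp] theorem pos11 (j : Fin m) : pos (m := m) c s (j.succ, b) 1 = 0 := rfl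
@[simp] theorem pos12 (j k : Fin m) :
    pos (m := m) c s (j.succ, b) k.succ.succ = if k = j then er b else 0 := by
  show (Pi.single j (er b) : Fin m → ℝ) k = _
  rw [Pi.single_apply]

end pos

theorem inner_pos {m : ℕ} {c s : ℝ} (h : c ^ 2 + s ^ 2 = 1) (i j : Fin (m + 1)) (b b' : Bool)
    (hb : i = j → b = b') :
    inner ℝ (pos c s (i, b)) (pos c s (j, b')) = if i = j then (1 : ℝ) else 0 := by
  rw [PiLp.inner_apply, Fin.sum_univ_succ, Fin.sum_univ_succ]
  simp only [RCLike.inner_apply, conj_trivial, Fin.succ_zero_eq_one]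
  induction i using Fin.cases with
  | zero =>
    induction j using Fin.cases with
    | zero =>
      obtain rfl := hb rfl
      simp only [pos00, pos01, pos02, mul_zero, Finset.sum_const_zero, if_true]
      linear_combination h + s ^ 2 * er_sq b
    | succ j => simp [(Fin.succ_ne_zero j).symm]
  | succ i =>
    induction j using Fin.cases with
    | zero => simp [Fin.succ_ne_zero]
    | succ j =>
      simp only [pos10, pos11, pos12, mul_zero, zero_add, Fin.succ_inj]
      by_cases hij : i = j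
      · subst hij
        obtain rfl := hb rfl
        simp [er_sq]
      · rw [if_neg hij]
        refine Finset.sum_eq_zero fun k _ => ?_
        by_cases hk : k = j
        · have : ¬ k = i := fun e => hij (e.symm.trans hk)
          rw [if_neg this, mul_zero]
        · rw [if_neg hk, zero_mul]

theorem norm_pos {m : ℕ} {c s : ℝ} (h : c ^ 2 + s ^ 2 = 1) (v : Fin (m + 1) × Bool) :
    ‖pos c s v‖ = 1 := by
  have := inner_pos h v.1 v.1 v.2 v.2 fun _ => rfl
  rw [if_pos rfl, real_inner_self_eq_norm_sq] at this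
  have h0 := norm_nonneg (pos c s v)
  show ‖pos c s (v.1, v.2)‖ = 1
  nlinarith

theorem inner_pos' {m : ℕ} {c s : ℝ} (h : c ^ 2 + s ^ 2 = 1) (t : Fin (m + 1) → Fin (m + 1) × Bool)
    (ht : oc t ≠ 0) (i j : Fin (m + 1)) :
    inner ℝ (pos c s (t i)) (pos c s (t j)) = if i = j then (1 : ℝ) else 0 := by
  rw [oc_ne_iff] at ht
  have := inner_pos h (t i).1 (t j).1 (t i).2 (t j).2 fun e => by rw [ht e]
  rw [this]
  by_cases hij : i = j
  · simp [hij]
  · rw [if_neg hij, if_neg fun e => hij (ht e)]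

theorem conf_pos {m : ℕ} {c s c' s' : ℝ} (h : c ^ 2 + s ^ 2 = 1) (h' : c' ^ 2 + s' ^ 2 = 1) :
    pos (m := m) c s ∈ Conf (cross (m + 1)) (pos c' s') := by
  refine ⟨⟨norm_pos h, fun t ht => ?_⟩, fun t ht i j => ?_⟩
  · apply Orthonormal.linearIndependent (𝕜 := ℝ)
    rw [orthonormal_iff_ite]
    exact inner_pos' h t ht
  · unfold InnerProductGeometry.angle
    rw [inner_pos' h t ht, inner_pos' h' t ht, norm_pos h, norm_pos h, norm_pos h', norm_pos h']

theorem dt_pos {m : ℕ} (c s : ℝ) (σ : Fin (m + 1) → Bool) (u : E (m + 1)) :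
    dt (pos c s) (fc σ) u
      = (u 0 * (er (σ 0) * s) - u 1 * c) * ∏ j : Fin m, er (σ j.succ) := by
  unfold dt
  have hD : ∀ a : ℝ, ∀ w : Fin m → ℝ, Matrix.det (Matrix.of (Fin.cons (Fin.cons a w)
      (fun j : Fin m => (Fin.cons 0 (Pi.single j (er (σ j.succ))) : Fin (m + 1) → ℝ)) :
        Fin (m + 1) → Fin (m + 1) → ℝ)) = a * ∏ j : Fin m, er (σ j.succ) := by
    intro a w
    rw [Matrix.det_succ_column_zero, Fin.sum_univ_succ, Finset.sum_eq_zero, ← Matrix.det_diagonal]
    · simp only [Fin.val_zero, pow_zero, one_mul, Matrix.of_apply, Fin.cons_zero, add_zero]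
      congr 2
      ext i j
      simp [Matrix.diagonal_apply, Pi.single_apply, eq_comm]
    · intro j _
      simp
  rw [Matrix.det_succ_column_zero, Fin.sum_univ_succ, Fin.sum_univ_succ, Finset.sum_eq_zero]
  · have e1 := hD (er (σ 0) * s) 0
    have e2 := hD (u 1) (fun j => u j.succ.succ)
    have g1 : (Matrix.of fun i j => (Fin.cons u (pos c s ∘ fc σ) : Fin (m + 2) → E (m + 1)) i j).submatrix
        (Fin.succAbove 0) Fin.succ = Matrix.of (Fin.cons (Fin.cons (er (σ 0) * s) 0)
      (fun j : Fin m => (Fin.cons 0 (Pi.single j (er (σ j.succ))) : Fin (m + 1) → ℝ)) :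
        Fin (m + 1) → Fin (m + 1) → ℝ) := by
      ext i j
      refine Fin.cases ?_ (fun i => ?_) i <;> refine Fin.cases ?_ (fun j => ?_) j <;>
        simp [fc, Pi.single_apply]
    have g2 : (Matrix.of fun i j => (Fin.cons u (pos c s ∘ fc σ) : Fin (m + 2) → E (m + 1)) i j).submatrix
        (Fin.succAbove (Fin.succ 0)) Fin.succ = Matrix.of (Fin.cons (Fin.cons (u 1) (fun j => u j.succ.succ))
      (fun j : Fin m => (Fin.cons 0 (Pi.single j (er (σ j.succ))) : Fin (m + 1) → ℝ)) :
        Fin (m + 1) → Fin (m + 1) → ℝ) := by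
      ext i j
      refine Fin.cases ?_ (fun i => ?_) i <;> refine Fin.cases ?_ (fun j => ?_) j <;>
        simp [fc, Pi.single_apply]
    rw [g1, g2, e1, e2]
    simp [fc]
    ring
  · intro j _
    simp [fc]

theorem mem_cone {m : ℕ} (c s : ℝ) (σ : Fin (m + 1) → Bool) (z : E (m + 1)) :
    z ∈ cone (pos c s) (fc σ) ↔ (∃ a, 0 ≤ a ∧ z 0 = a * c ∧ z 1 = a * (er (σ 0) * s)) ∧
      ∀ j : Fin m, 0 ≤ er (σ j.succ) * z j.succ.succ := by
  have ev : ∀ (a : Fin (m + 1) → ℝ) (k : Fin (m + 2)), (∑ i, a i • pos c s (fc σ i)) k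
      = a 0 * pos c s (0, σ 0) k + ∑ j : Fin m, a j.succ * pos c s (j.succ, σ j.succ) k := by
    intro a k
    rw [Fin.sum_univ_succ]
    simp [fc]
  constructor
  · rintro ⟨a, ha, rfl⟩
    refine ⟨⟨a 0, ha 0, ?_, ?_⟩, fun j => ?_⟩
    · rw [ev]; simp
    · rw [ev]; simp
    · rw [ev]
      simp only [pos02, pos12, mul_zero, zero_add, mul_ite, Finset.sum_ite_eq, Finset.mem_univ,
        if_true]
      have := ha j.succ
      have h2 := er_sq (σ j.succ)
      nlinarith
  · rintro ⟨⟨a, ha, h0, h1⟩, h2⟩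
    refine ⟨Fin.cons a fun j => er (σ j.succ) * z j.succ.succ, fun i => ?_, ?_⟩
    · refine Fin.cases ?_ (fun i => ?_) i
      · simpa using ha
      · simpa using h2 i
    · ext k
      rw [ev]
      refine Fin.cases ?_ (fun k => Fin.cases ?_ (fun k => ?_) k) k
      · simp [h0]
      · simp [h1]
      · simp only [pos02, pos12, mul_zero, zero_add, mul_ite, Finset.sum_ite_eq, Finset.mem_univ,
          if_true, Fin.cons_succ]
        linear_combination (- z k.succ.succ) * er_sq (σ k.succ)

/-- base points `-κ e₀` -/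
noncomputable def yv {m : ℕ} (κ : ℝ) : E (m + 1) := WithLp.toLp 2 (Fin.cons (-κ) 0)

@[simp] theorem yv0 {m : ℕ} (κ : ℝ) : yv (m := m) κ 0 = -κ := rfl
@[simp] theorem yv1 {m : ℕ} (κ : ℝ) : yv (m := m) κ 1 = 0 := rfl
@[simp] theorem yv2 {m : ℕ} (κ : ℝ) (j : Fin m) : yv (m := m) κ j.succ.succ = 0 := rfl

theorem norm_yv {m : ℕ} {κ : ℝ} (h : κ ^ 2 = 1) : ‖yv (m := m) κ‖ = 1 := by
  rw [EuclideanSpace.norm_eq, Fin.sum_univ_succ, Fin.sum_univ_succ]
  simp [h]

theorem er_dec {b : Bool} {r : ℝ} (h : 0 ≤ er b * r) (hr : r ≠ 0) : b = decide (0 < r) := by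
  cases b
  · simp only [er, ez] at h
    have : ¬ 0 < r := by
      intro h'
      norm_num at h
      linarith
    simp [this]
  · simp only [er, ez] at h
    have : 0 < r := lt_of_le_of_ne (by simpa using h) hr.symm
    simp [this]

theorem er_abs (r : ℝ) : er (decide (0 < r)) * r = |r| := by
  by_cases h : 0 < r
  · simp [h, er, ez, abs_of_pos h]
  · simp [h, er, ez, abs_of_nonpos (not_lt.mp h)]

theorem abs_er (b : Bool) : |er b| = 1 := by cases b <;> simp [er, ez]

theorem cond_iff {m : ℕ} (c s κ : ℝ) (σ : Fin (m + 1) → Bool) (x : E (m + 1)) :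
    (∃ l ∈ Icc (0 : ℝ) 1, (1 - l) • yv κ + l • x ∈ cone (pos c s) (fc σ)) ↔
      ∃ l, 0 ≤ l ∧ l ≤ 1 ∧ (∃ a, 0 ≤ a ∧ -((1 - l) * κ) + l * x 0 = a * c ∧
        l * x 1 = a * (er (σ 0) * s)) ∧ ∀ j : Fin m, 0 ≤ er (σ j.succ) * (l * x j.succ.succ) := by
  simp only [mem_cone, mem_Icc, and_assoc, PiLp.add_apply, PiLp.smul_apply, yv0, yv1, yv2,
    smul_eq_mul, mul_zero, zero_add, mul_neg]

theorem ind_gen {m : ℕ} (c s : ℝ) (hs : s ≠ 0) (x : E (m + 1)) (h1 : x 1 ≠ 0)
    (h2 : ∀ j : Fin m, x j.succ.succ ≠ 0) (h3 : |x 1| * c ≠ x 0 * |s|) :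
    ind (cross (m + 1)) (pos c s) (yv 1) x
      = SignType.sign s * (if |x 1| * c < x 0 * |s| then 1 else 0) := by
  rw [ind_cross]
  set σ₀ : Fin (m + 1) → Bool :=
    Fin.cons (decide (0 < x 1 * s)) fun j => decide (0 < x j.succ.succ) with hσ₀
  have hs' : 0 < |s| := abs_pos.mpr hs
  have key : ∀ σ : Fin (m + 1) → Bool,
      (∃ l ∈ Icc (0 : ℝ) 1, (1 - l) • yv 1 + l • x ∈ cone (pos c s) (fc σ)) →
      σ = σ₀ ∧ |x 1| * c < x 0 * |s| ∧
        (oc (fc σ) : ℝ) * SignType.sign (dt (pos c s) (fc σ) (x - yv 1)) = SignType.sign s := by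
    intro σ hσ
    obtain ⟨l, hl0, hl1, ⟨a, ha, e0, e1⟩, e2⟩ := (cond_iff c s 1 σ x).mp hσ
    have hS : er (σ 0) * s ≠ 0 := mul_ne_zero (er_ne _) hs
    have hl : 0 < l := by
      refine lt_of_le_of_ne hl0 fun h => ?_
      subst h
      have : a = 0 := by
        rcases mul_eq_zero.mp (e1.symm.trans (zero_mul _)) with h | h
        · exact h
        · exact absurd h hS
      rw [this] at e0
      norm_num at e0
    refine ⟨?_, ?_, ?_⟩
    · funext i
      refine Fin.cases ?_ (fun j => ?_) i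
      · simp only [hσ₀, Fin.cons_zero]
        refine er_dec ?_ (mul_ne_zero h1 hs)
        have : l * (er (σ 0) * (x 1 * s)) = a * (er (σ 0) * s) ^ 2 := by
          linear_combination (er (σ 0) * s) * e1
        have h' : 0 ≤ l * (er (σ 0) * (x 1 * s)) := by rw [this]; positivity
        exact nonneg_of_mul_nonneg_right h' hl |> fun h => h
      · simp only [hσ₀, Fin.cons_succ]
        refine er_dec ?_ (h2 j)
        have h' : 0 ≤ l * (er (σ j.succ) * x j.succ.succ) := by
          have := e2 j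
          linarith
        exact nonneg_of_mul_nonneg_right h' hl |> fun h => h
    · refine lt_of_le_of_ne ?_ h3
      have e3 : l * |x 1| = a * |s| := by
        have := congrArg abs e1
        rwa [abs_mul, abs_mul, abs_mul, abs_of_pos hl, abs_of_nonneg ha, abs_er, one_mul] at this
      have e4 : l * (x 0 * |s| - |x 1| * c) = (1 - l) * |s| := by
        linear_combination |s| * e0 - c * e3
      have h' : 0 ≤ l * (x 0 * |s| - |x 1| * c) := by
        rw [e4]; exact mul_nonneg (by linarith) hs'.le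
      have := nonneg_of_mul_nonneg_right h' hl |> fun h => h
      linarith
    · have ho : (oc (fc σ) : ℝ) = er (σ 0) * ∏ j : Fin m, er (σ j.succ) := by
        rw [oc_fc, Fin.prod_univ_succ]; simp [er]
      have hd : dt (pos c s) (fc σ) (x - yv 1) = (oc (fc σ) : ℝ) * (s * l⁻¹) := by
        rw [dt_pos, ho]
        simp only [PiLp.sub_apply, yv0, yv1, sub_zero]
        have : (x 0 - -1) * (er (σ 0) * s) - x 1 * c = er (σ 0) * s * l⁻¹ := by
          field_simp
          linear_combination (er (σ 0) * s) * e0 - c * e1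
        rw [this]; ring
      rw [hd]
      have hl' : SignType.sign l⁻¹ = 1 := sign_pos (inv_pos.mpr hl)
      rcases (cross (m + 1)).val (fc σ) with h | h | h
      · exact absurd h (oc_fc_ne _)
      · change oc (fc σ) = 1 at h
        simp [h, sign_mul, hl']
      · change oc (fc σ) = -1 at h
        simp [h, sign_mul, hl', Left.sign_neg]
  rw [Finset.sum_eq_single σ₀]
  · unfold crossing
    by_cases hc : |x 1| * c < x 0 * |s|
    · have hσ : ∃ l ∈ Icc (0 : ℝ) 1, (1 - l) • yv 1 + l • x ∈ cone (pos c s) (fc σ₀) := by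
        rw [cond_iff]
        have hD : 0 < |s| + (x 0 * |s| - |x 1| * c) := by linarith
        obtain ⟨D, hDD⟩ : ∃ D, D = |s| + (x 0 * |s| - |x 1| * c) := ⟨_, rfl⟩
        rw [← hDD] at hD
        have hD' : D * D⁻¹ = 1 := mul_inv_cancel₀ hD.ne'
        refine ⟨|s| * D⁻¹, by positivity, ?_,
          ⟨|x 1| * D⁻¹, by positivity, ?_, ?_⟩, fun j => ?_⟩
        · rw [← div_eq_mul_inv, div_le_one hD]; linarith
        · linear_combination hD' - D⁻¹ * hDD
        · simp only [hσ₀, Fin.cons_zero]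
          have e5 := er_abs (x 1 * s)
          have e6 := er_sq (decide (0 < x 1 * s))
          rw [abs_mul] at e5
          have e7 : |x 1| * |x 1| = x 1 * x 1 := abs_mul_abs_self _
          have e8 : |s| * x 1 = |x 1| * (er (decide (0 < x 1 * s)) * s) := by
            apply mul_left_cancel₀ h1
            linear_combination (-|x 1|) * e5 - |s| * e7
          linear_combination D⁻¹ * e8
        · simp only [hσ₀, Fin.cons_succ]
          rw [mul_left_comm, er_abs]
          positivity
      rw [if_pos hσ, if_pos hc, mul_one]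
      exact (key σ₀ hσ).2.2
    · rw [if_neg hc, if_neg fun h => hc (key σ₀ h).2.1, mul_zero]
  · intro σ _ hσ
    unfold crossing
    rw [if_neg fun h => hσ (key σ h).1]
  · intro h; exact absurd (Finset.mem_univ _) h

theorem ind_deg {m : ℕ} (c : ℝ) (hc : c ^ 2 = 1) (x : E (m + 1)) (h1 : x 1 ≠ 0) :
    ind (cross (m + 1)) (pos c 0) (yv c) x = 0 := by
  rw [ind_cross]
  refine Finset.sum_eq_zero fun σ _ => ?_
  unfold crossing
  rw [if_neg]
  rw [cond_iff]
  rintro ⟨l, -, -, ⟨a, ha, e0, e1⟩, -⟩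
  have : l = 0 := by
    rcases mul_eq_zero.mp (e1.trans (by simp)) with h | h
    · exact h
    · exact absurd h h1
  subst this
  have : a = -1 := by linear_combination (-c) * e0 - (a + 1) * hc
  linarith

theorem not_image {m : ℕ} (c s κ : ℝ) (h : (s ≠ 0 ∧ κ = 1) ∨ (κ = c ∧ c ^ 2 = 1)) :
    yv κ ∉ image (cross (m + 1)) (pos c s) := by
  rintro ⟨t, ht, hy⟩
  obtain ⟨σ, τ, rfl⟩ := oc_form t ht
  rw [cone_perm, mem_cone] at hy
  obtain ⟨⟨a, ha, e0, e1⟩, -⟩ := hy
  rw [yv0] at e0
  rw [yv1] at e1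
  rcases h with ⟨hs, rfl⟩ | ⟨rfl, hc⟩
  · have : a = 0 := by
      rcases mul_eq_zero.mp e1.symm with h | h
      · exact h
      · exact absurd h (mul_ne_zero (er_ne _) hs)
    rw [this] at e0
    norm_num at e0
  · have : a = -1 := by linear_combination (-κ) * e0 - (a + 1) * hc
    linarith

theorem null_hyp {n : ℕ} (f : E n →ₗ[ℝ] ℝ) (hf : f ≠ 0) : ∀ᵐ (x : Metric.sphere (0 : E n) 1) ∂(sm n), f (x : E n) ≠ 0 := by
  rw [ae_iff]
  have hm : MeasurableSet {x : Metric.sphere (0 : E n) 1 | ¬ f (x : E n) ≠ 0} := by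
    simp only [ne_eq, not_not]
    exact (isClosed_eq (f.continuous_of_finiteDimensional.comp continuous_subtype_val)
      continuous_const).measurableSet
  unfold sm
  rw [Measure.toSphere_apply' _ hm]
  have h0 : (volume : Measure (E n)) (LinearMap.ker f) = 0 :=
    Measure.addHaar_submodule _ _ fun h => hf (LinearMap.ker_eq_top.mp h)
  rw [measure_mono_null ?_ h0, mul_zero]
  rintro _ ⟨r, -, _, ⟨x, hx, rfl⟩, rfl⟩
  simp only [ne_eq, not_not, mem_ofPred_eq] at hx
  simp [hx]

theorem null_two {n : ℕ} (i j : Fin (n + 1)) (hij : i ≠ j) (a b : ℝ) (hab : a ≠ 0 ∨ b ≠ 0) :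
    ∀ᵐ (x : Metric.sphere (0 : E n) 1) ∂(sm n), a * (x : E n) i + b * (x : E n) j ≠ 0 := by
  have := null_hyp (n := n) (a • EuclideanSpace.projₗ i + b • EuclideanSpace.projₗ j) ?_
  · simpa using this
  · intro h
    rcases hab with h' | h'
    · have := LinearMap.congr_fun h (EuclideanSpace.single i 1)
      simp [hij.symm] at this
      exact h' this
    · have := LinearMap.congr_fun h (EuclideanSpace.single j 1)
      simp [hij] at this
      exact h' this

theorem null_one {n : ℕ} (i : Fin (n + 1)) : 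
    ∀ᵐ (x : Metric.sphere (0 : E n) 1) ∂(sm n), (x : E n) i ≠ 0 := by
  have := null_hyp (n := n) (EuclideanSpace.projₗ i) ?_
  · simpa using this
  · intro h
    have := LinearMap.congr_fun h (EuclideanSpace.single i 1)
    simp at this

theorem null_gen {m : ℕ} (c s : ℝ) (h : c ^ 2 + s ^ 2 = 1) :
    ∀ᵐ (x : Metric.sphere (0 : E (m + 1)) 1) ∂(sm (m + 1)),
      |(x : E (m + 1)) 1| * c ≠ (x : E (m + 1)) 0 * |s| := by
  have hcs : ∀ e : ℝ, e ≠ 0 → e * c ≠ 0 ∨ |s| ≠ 0 := by
    intro e he
    by_contra hh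
    push Not at hh
    have h1 : c = 0 := (mul_eq_zero.mp hh.1).resolve_left he
    have h2 : s = 0 := abs_eq_zero.mp hh.2
    rw [h1, h2] at h
    norm_num at h
  have h01 : (1 : Fin (m + 2)) ≠ 0 := by simp
  filter_upwards [null_two (n := m + 1) 1 0 h01 _ _ (hcs 1 one_ne_zero),
    null_two (n := m + 1) 1 0 h01 _ _ (hcs (-1) (by norm_num))] with x h1 h2 h3
  rcases abs_choice ((x : E (m + 1)) 1) with e | e
  · rw [e] at h3; apply h2; linarith
  · rw [e] at h3; apply h1; linarith

/-- indicator of the lune -/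
noncomputable def lu {m : ℕ} (θ : ℝ) (x : Metric.sphere (0 : E (m + 1)) 1) : ℝ :=
  if |(x : E (m + 1)) 1| * Real.cos θ < (x : E (m + 1)) 0 * |Real.sin θ| then 1 else 0

theorem cont_co {n : ℕ} (i : Fin (n + 1)) :
    Continuous fun x : Metric.sphere (0 : E n) 1 => (x : E n) i := by fun_prop

theorem lu_meas {m : ℕ} (θ : ℝ) : Measurable (lu (m := m) θ) := by
  refine Measurable.ite ?_ measurable_const measurable_const
  exact (isOpen_lt (((cont_co 1).abs).mul continuous_const)
    ((cont_co 0).mul continuous_const)).measurableSet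

theorem lu_bd {m : ℕ} (θ : ℝ) (x) : ‖lu (m := m) θ x‖ ≤ 1 := by
  unfold lu; split_ifs <;> simp

instance (n : ℕ) : IsFiniteMeasure (sm n) := by unfold sm; infer_instance

theorem lu_int {m : ℕ} (θ : ℝ) : Integrable (lu (m := m) θ) (sm (m + 1)) :=
  (integrable_const (1 : ℝ)).mono' (lu_meas θ).aestronglyMeasurable
    (Filter.Eventually.of_forall (lu_bd θ))

/-- volume of the lune -/
noncomputable def W (m : ℕ) (θ : ℝ) : ℝ := ∫ x, lu (m := m) θ x ∂(sm (m + 1))

theorem W_cont (m : ℕ) : Continuous (W m) := by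
  rw [continuous_iff_continuousAt]
  intro θ
  refine continuousAt_of_dominated (bound := fun _ => 1)
    (Filter.Eventually.of_forall fun θ => (lu_meas θ).aestronglyMeasurable)
    (Filter.Eventually.of_forall fun θ => Filter.Eventually.of_forall (lu_bd θ))
    (integrable_const _) ?_
  filter_upwards [null_gen (m := m) _ _ (Real.cos_sq_add_sin_sq θ)] with x hx
  have c1 : Continuous fun φ : ℝ => |(x : E (m + 1)) 1| * Real.cos φ := by fun_prop
  have c2 : Continuous fun φ : ℝ => (x : E (m + 1)) 0 * |Real.sin φ| := by fun_prop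
  rcases lt_or_gt_of_ne hx with h | h
  · refine (continuousAt_const (y := (1 : ℝ))).congr ?_
    filter_upwards [(isOpen_lt c1 c2).mem_nhds h] with φ hφ
    exact (if_pos hφ).symm
  · refine (continuousAt_const (y := (0 : ℝ))).congr ?_
    filter_upwards [(isOpen_lt c2 c1).mem_nhds h] with φ hφ
    exact (if_neg (not_lt.mpr (le_of_lt hφ))).symm

theorem W_one (m : ℕ) (θ : ℝ) (h : Real.cos θ = 1) (h' : Real.sin θ = 0) : W m θ = 0 := by
  unfold W
  have : lu (m := m) θ = fun _ => 0 := by
    funext x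
    unfold lu
    rw [h, h', if_neg]
    simp
  simp [this]

theorem W_pi (m : ℕ) : W m Real.pi = volS (m + 1) := by
  unfold W volS
  have : lu (m := m) Real.pi =ᵐ[sm (m + 1)] fun _ => 1 := by
    filter_upwards [null_one (n := m + 1) 1] with x hx
    unfold lu
    rw [if_pos]
    simpa using hx
  rw [integral_congr_ae this]
  simp

theorem ind_ae {m : ℕ} (θ : ℝ) (h : Real.sin θ ≠ 0) :
    (fun x : Metric.sphere (0 : E (m + 1)) 1 =>
      ind (cross (m + 1)) (pos (Real.cos θ) (Real.sin θ)) (yv 1) x)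
      =ᵐ[sm (m + 1)] fun x => SignType.sign (Real.sin θ) * lu θ x := by
  filter_upwards [null_one (n := m + 1) 1,
    ae_all_iff.mpr fun j : Fin m => null_one (n := m + 1) j.succ.succ,
    null_gen (m := m) _ _ (Real.cos_sq_add_sin_sq θ)] with x h1 h2 h3
  have := ind_gen (Real.cos θ) (Real.sin θ) h x.1 h1 h2 h3
  unfold lu
  exact this

theorem ind_ae' {m : ℕ} (c : ℝ) (hc : c ^ 2 = 1) :
    (fun x : Metric.sphere (0 : E (m + 1)) 1 => ind (cross (m + 1)) (pos c 0) (yv c) x)
      =ᵐ[sm (m + 1)] fun _ => 0 := by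
  filter_upwards [null_one (n := m + 1) 1] with x h1
  exact ind_deg c hc x.1 h1

theorem volS_pos (n : ℕ) : 0 < volS n := by
  unfold volS sm
  have : NeZero (volume : Measure (E n)).toSphere := ⟨Measure.toSphere_ne_zero _⟩
  exact measureReal_univ_pos

theorem pos_cont (m : ℕ) : Continuous fun s : ℝ =>
    (pos (Real.cos (2 * Real.pi * s)) (Real.sin (2 * Real.pi * s)) :
      Fin (m + 1) × Bool → E (m + 1)) := by
  refine continuous_pi fun v => ?_
  obtain ⟨i, b⟩ := v
  refine (PiLp.continuous_toLp 2 _).comp (continuous_pi fun k => ?_)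
  refine Fin.cases ?_ (fun i => continuous_const) i
  refine Fin.cases ?_ (fun k => Fin.cases ?_ (fun k => continuous_const) k) k
  · show Continuous fun s : ℝ => Real.cos (2 * Real.pi * s)
    fun_prop
  · show Continuous fun s : ℝ => er b * Real.sin (2 * Real.pi * s)
    fun_prop

theorem result (n : ℕ) (hn : 3 ≤ n) :
    0 < volS n ∧ ∃ (V : Type) (_ : DecidableEq V) (_ : Fintype V) (K : OPM n V)
      (γ : ℝ → V → E n) (L : ℝ → ℝ),
      Continuous γ ∧ (∀ s, γ s ∈ Conf K (γ 0)) ∧ γ 1 = γ 0 ∧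
      (¬ ∀ s ∈ Icc (0 : ℝ) 1, ∃ g : E n ≃ₗᵢ[ℝ] E n, ∀ v, γ s v = g (γ 0 v)) ∧
      Continuous L ∧
      (∀ s ∈ Icc (0 : ℝ) 1, ∃ y : E n, ‖y‖ = 1 ∧ y ∉ image K (γ s) ∧
        Integrable (fun x : Metric.sphere (0 : E n) 1 => ind K (γ s) y x) (sm n) ∧
        ∃ k : ℤ, L s - Vol K (γ s) y = k * volS n) ∧
      L 1 - L 0 = 2 * volS n := by
  refine ⟨volS_pos n, ?_⟩
  obtain ⟨m, rfl⟩ : ∃ m, n = m + 1 := ⟨n - 1, by omega⟩
  have hπ := Real.pi_pos
  have e1 : 2 * Real.pi * (1 / 2) = Real.pi := by ring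
  refine ⟨Fin (m + 1) × Bool, inferInstance, inferInstance, cross (m + 1),
    fun s => pos (Real.cos (2 * Real.pi * s)) (Real.sin (2 * Real.pi * s)),
    fun s => if s ≤ 1 / 2 then W m (2 * Real.pi * s) else 2 * volS (m + 1) - W m (2 * Real.pi * s),
    pos_cont m, fun s => conf_pos (Real.cos_sq_add_sin_sq _) (Real.cos_sq_add_sin_sq _),
    by simp, fun h => ?_, ?_, fun s hs => ?_, ?_⟩
  · obtain ⟨g, hg⟩ := h (1 / 4) ⟨by norm_num, by norm_num⟩
    have a1 := hg (0, true)
    have a2 := hg (0, false)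
    have a3 : pos (m := m) (Real.cos (2 * Real.pi * 0)) (Real.sin (2 * Real.pi * 0)) (0, true)
        = pos (Real.cos (2 * Real.pi * 0)) (Real.sin (2 * Real.pi * 0)) (0, false) := by
      simp [pos]
    simp only at a1 a2
    rw [a3, ← a2] at a1
    have a4 := congrArg (fun z : E (m + 1) => z 1) a1
    have e2 : 2 * Real.pi * (1 / 4) = Real.pi / 2 := by ring
    simp only [pos01, e2, Real.sin_pi_div_two, er, ez] at a4
    norm_num at a4
  · refine Continuous.if_le ((W_cont m).comp (by fun_prop))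
      (continuous_const.sub ((W_cont m).comp (by fun_prop))) continuous_id continuous_const ?_
    rintro s rfl
    rw [e1, W_pi]; ring
  · by_cases h : Real.sin (2 * Real.pi * s) = 0
    · have hc : Real.cos (2 * Real.pi * s) ^ 2 = 1 := by
        have := Real.cos_sq_add_sin_sq (2 * Real.pi * s)
        rw [h] at this; linarith
      refine ⟨yv (Real.cos (2 * Real.pi * s)), norm_yv hc, not_image _ _ _ (Or.inr ⟨rfl, hc⟩), ?_, ?_⟩
      · simp only [h]
        exact (integrable_congr (ind_ae' _ hc)).mpr (integrable_const _)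
      · have hV : Vol (cross (m + 1)) (pos (Real.cos (2 * Real.pi * s)) (Real.sin (2 * Real.pi * s)))
            (yv (Real.cos (2 * Real.pi * s))) = 0 := by
          unfold Vol
          rw [h, integral_congr_ae (ind_ae' _ hc)]
          simp
        simp only [hV, sub_zero]
        have hW : W m (2 * Real.pi * s) = 0 ∨ W m (2 * Real.pi * s) = volS (m + 1) := by
          rcases sq_eq_one_iff.mp hc with h1 | h1
          · exact Or.inl (W_one m _ h1 h)
          · right
            rw [← W_pi]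
            unfold W lu
            simp only [h1, h, Real.cos_pi, Real.sin_pi]
        split_ifs
        · rcases hW with h1 | h1 <;> rw [h1]
          · exact ⟨0, by simp⟩
          · exact ⟨1, by simp⟩
        · rcases hW with h1 | h1 <;> rw [h1]
          · exact ⟨2, by simp⟩
          · exact ⟨1, by simp; ring⟩
    · refine ⟨yv 1, norm_yv (by norm_num), not_image _ _ _ (Or.inl ⟨h, rfl⟩),
        (integrable_congr (ind_ae _ h)).mpr ((lu_int _).const_mul _), ?_⟩
      have hV : Vol (cross (m + 1)) (pos (Real.cos (2 * Real.pi * s)) (Real.sin (2 * Real.pi * s)))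
          (yv 1) = SignType.sign (Real.sin (2 * Real.pi * s)) * W m (2 * Real.pi * s) := by
        unfold Vol W
        rw [integral_congr_ae (ind_ae _ h), integral_const_mul]
      simp only [hV]
      split_ifs with h2
      · have : 0 < Real.sin (2 * Real.pi * s) := by
          refine lt_of_le_of_ne (Real.sin_nonneg_of_nonneg_of_le_pi ?_ ?_) (Ne.symm h)
          · have := hs.1; positivity
          · nlinarith
        exact ⟨0, by simp [sign_pos this]⟩
      · have : Real.sin (2 * Real.pi * s) < 0 := by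
          refine lt_of_le_of_ne ?_ h
          rw [← Real.sin_sub_two_pi]
          have := hs.2
          refine Real.sin_nonpos_of_nonpos_of_neg_pi_le ?_ ?_ <;> nlinarith
        exact ⟨2, by simp [sign_neg this]⟩
  · simp only
    rw [if_neg (by norm_num), if_pos (by norm_num), W_one m _ (by simp) (by simp),
      W_one m _ (by simp) (by simp)]
    ring

end Pool.Agent.Results.MP_cf0a62_gt.Yes
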